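import Pool.Agent.H165P.Defs
import Pool.Agent.H165P.Conj

/-!
# Area-preserving Anosov diffeomorphisms with the same pressure function that are not conjugate

The first diffeomorphism is `f = A ∘ S` with `A = [[10, 3], [3, 1]]` and `S` a small composition of
two shears fixing the nine fixed points of `A`. The second one is `g = J⁻¹ ∘ f⁻¹ ∘ J` with `J` the
rotation by a quarter turn. Since `A` is symmetric, `g` is homotopic to `f`. Passing to the inverse
changes neither the metric entropy nor (for area-preserving maps) the unstable exponent of an
invariant measure. A smooth conjugacy would match the traces of the derivatives at the nine fixed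
points by an affine map, which is impossible.
-/

set_option autoImplicit false

open Set Filter Topology MeasureTheory Function
open scoped ContDiff ENNReal

namespace Pool.Agent.Results.MP_480559_an.SamePressure

open Pool.Agent.H165P

/-- There are homotopic `C^∞` area-preserving Anosov diffeomorphisms `f` and `g` of the two-torus
with identical pressure functions that are not `C^∞` conjugate. -/
theorem result :
    ∃ (f g : Torus → Torus) (F G : ℝ × ℝ → ℝ × ℝ)
      (Es Eu Es' Eu' : Torus → Submodule ℝ (ℝ × ℝ)),
      IsAnosov f F Es Eu ∧ IsAnosov g G Es' Eu' ∧
      MeasurePreserving f (volume : Measure Torus) volume ∧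
      MeasurePreserving g (volume : Measure Torus) volume ∧
      AreHomotopic f g ∧
      (∀ t : ℝ, pressure f F Eu t = pressure g G Eu' t) ∧
      ¬ AreSmoothlyConjugate f g := by
  obtain ⟨s, u, β, α, D⟩ := exists_fields
  exact ⟨fT, gT, F, G, spn s, spn u, _, _, D.anosov, (fields_G D).anosov, fT_mp, gT_mp, homotopic,
    pressure_eq D, not_conj⟩

end Pool.Agent.Results.MP_480559_an.SamePressure
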